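import Pool.Agent.Helper16.SL.Span
import Pool.Agent.Helper36.EX.Defs

/-!
# EX, block A1: spreading out a relation between units
-/

set_option autoImplicit false

namespace Pool.Agent.EX

open MvPolynomial Pool.Agent.SL

variable {K Ω : Type*} [Field K] [Field Ω] [Algebra K Ω]

theorem zpow_sum' {ι : Type*} (s : Finset ι) (f : ι → ℤ) {T : Ω} (hT : T ≠ 0) :
    T ^ ∑ a ∈ s, f a = ∏ a ∈ s, T ^ f a := by
  classical
  induction s using Finset.induction_on with
  | empty => simp
  | insert a s ha ih => rw [Finset.sum_insert ha, Finset.prod_insert ha, zpow_add₀ hT, ih]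

/-- In a vanishing sum of units the part of each weight vanishes, if the weight is constant on the classes. -/
theorem weight_sum (D : Dat K Ω) {ι : Type*} [DecidableEq ι] {β : Type*} [DecidableEq β] (y : ι → Ω)
    (hy : ∀ a, D.U (y a)) (f : ι → β) (hf : ∀ a b, (∃ κ : K, y a = algebraMap K Ω κ * y b) → f a = f b) :
    ∀ (N : ℕ) (s : Finset ι) (c : ι → K), s.card = N → ∑ a ∈ s, algebraMap K Ω (c a) * y a = 0 →
      ∀ w, ∑ a ∈ s.filter (fun a => f a = w), algebraMap K Ω (c a) * y a = 0 := by
  intro N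
  induction N with
  | zero =>
    intro s c hs _ w
    rw [Finset.card_eq_zero] at hs
    rw [hs]
    simp
  | succ N ih =>
    intro s c hs hsum w
    by_cases h : ∃ a ∈ s, ∃ b ∈ s, a ≠ b ∧ ∃ κ : K, y a = algebraMap K Ω κ * y b
    · obtain ⟨a, ha, b, hb, hab, κ, hκ⟩ := h
      have hb' : b ∈ s.erase a := Finset.mem_erase.2 ⟨hab.symm, hb⟩
      set c' : ι → K := fun x => if x = b then c b + c a * κ else c x with hc'
      have key : ∀ (p : ι → Prop) [DecidablePred p], (p a ↔ p b) →
          ∑ x ∈ (s.erase a).filter p, algebraMap K Ω (c' x) * y x = ∑ x ∈ s.filter p, algebraMap K Ω (c x) * y x := by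
        intro p _ hp
        by_cases hpa : p a
        · have hpb := hp.1 hpa
          have h1 : b ∈ (s.erase a).filter p := Finset.mem_filter.2 ⟨hb', hpb⟩
          have h2 : a ∈ s.filter p := Finset.mem_filter.2 ⟨ha, hpa⟩
          have h3 : (s.erase a).filter p = (s.filter p).erase a := by
            ext x
            simp only [Finset.mem_filter, Finset.mem_erase]
            tauto
          have h4 : b ∈ (s.filter p).erase a := h3 ▸ h1
          rw [← Finset.add_sum_erase _ _ h2, ← Finset.add_sum_erase _ _ h4, h3, ← Finset.add_sum_erase _ _ h4]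
          have h5 : ∑ x ∈ ((s.filter p).erase a).erase b, algebraMap K Ω (c' x) * y x =
              ∑ x ∈ ((s.filter p).erase a).erase b, algebraMap K Ω (c x) * y x := by
            refine Finset.sum_congr rfl fun x hx => ?_
            have : x ≠ b := Finset.ne_of_mem_erase hx
            simp only [hc', this, if_false]
          rw [h5]
          have h6 : c' b = c b + c a * κ := by simp [hc']
          rw [h6, map_add, map_mul, hκ]
          ring
        · have hpb : ¬ p b := fun h => hpa (hp.2 h)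
          have h3 : (s.erase a).filter p = s.filter p := by
            ext x
            simp only [Finset.mem_filter, Finset.mem_erase]
            constructor
            · rintro ⟨⟨_, h1⟩, h2⟩
              exact ⟨h1, h2⟩
            · rintro ⟨h1, h2⟩
              exact ⟨⟨fun h => hpa (h ▸ h2), h1⟩, h2⟩
          rw [h3]
          refine Finset.sum_congr rfl fun x hx => ?_
          have : x ≠ b := fun h => hpb (h ▸ (Finset.mem_filter.1 hx).2)
          simp only [hc', this, if_false]
      have h1 := ih (s.erase a) c' (by rw [Finset.card_erase_of_mem ha, hs]; rfl) (by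
        have h2 := key (fun _ => True) Iff.rfl
        simp only [Finset.filter_true] at h2
        rw [h2, hsum]) w
      rw [key (fun x => f x = w) (by rw [hf a b ⟨κ, hκ⟩])] at h1
      exact h1
    · push Not at h
      have hli := D.indep s.card (fun i => y (s.equivFin.symm i)) (fun i => hy _) (by
        intro i j hij a
        exact h _ (s.equivFin.symm i).2 _ (s.equivFin.symm j).2
          (fun h2 => hij (s.equivFin.symm.injective (Subtype.ext h2))) a)
      rw [Fintype.linearIndependent_iff] at hli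
      have h1 := hli (fun i => c (s.equivFin.symm i)) (by
        rw [← hsum, ← Finset.sum_coe_sort s, ← Equiv.sum_comp s.equivFin.symm]
        exact Finset.sum_congr rfl fun i _ => Algebra.smul_def _ _)
      refine Finset.sum_eq_zero fun a ha => ?_
      have h2 := h1 (s.equivFin ⟨a, (Finset.mem_filter.1 ha).1⟩)
      rw [Equiv.symm_apply_apply] at h2
      rw [h2, map_zero, zero_mul]

/-- a functional which vanishes on the exponents of the constant monomials -/
theorem exists_weight (D : Dat K Ω) {q : ℕ} (u : Fin q → Ω) (hu : ∀ i, D.U (u i)) (i j : Fin q)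
    (hij : ¬ Cst K (u i / u j)) :
    ∃ n : Fin q → ℤ, n i ≠ n j ∧ ∀ e : Fin q → ℤ, Cst K (∏ a, u a ^ e a) → ∑ a, e a * n a = 0 := by
  classical
  have hu0 : ∀ a, u a ≠ 0 := fun a => (hu a).1
  have hprod0 : ∀ e : Fin q → ℤ, ∏ a, u a ^ e a ≠ 0 := fun e =>
    Finset.prod_ne_zero_iff.2 fun a _ => zpow_ne_zero _ (hu0 a)
  have hmul : ∀ e e' : Fin q → ℤ, ∏ a, u a ^ (e a + e' a) = (∏ a, u a ^ e a) * ∏ a, u a ^ e' a := by
    intro e e'
    rw [← Finset.prod_mul_distrib]
    exact Finset.prod_congr rfl fun a _ => zpow_add₀ (hu0 a) _ _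
  have hpow : ∀ (e : Fin q → ℤ) (m : ℤ), ∏ a, u a ^ (m * e a) = (∏ a, u a ^ e a) ^ m := by
    intro e m
    rw [← Finset.prod_zpow]
    exact Finset.prod_congr rfl fun a _ => by rw [mul_comm, zpow_mul]
  let V : Submodule ℚ (Fin q → ℚ) :=
    { carrier := {v | ∃ (m : ℕ) (e : Fin q → ℤ), 0 < m ∧ Cst K (∏ a, u a ^ e a) ∧ ∀ a, (m : ℚ) * v a = e a}
      add_mem' := by
        rintro v v' ⟨m, e, hm, ⟨κ, hκ⟩, he⟩ ⟨m', e', hm', ⟨κ', hκ'⟩, he'⟩
        refine ⟨m * m', fun a => m' * e a + m * e' a, Nat.mul_pos hm hm', ⟨κ ^ (m' : ℤ) * κ' ^ (m : ℤ), ?_⟩, ?_⟩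
        · rw [hmul, hpow, hpow, hκ, hκ', map_mul, map_zpow₀, map_zpow₀]
        · intro a
          rw [Pi.add_apply]
          push_cast
          rw [← he a, ← he' a]
          ring
      zero_mem' := ⟨1, 0, one_pos, ⟨1, by simp⟩, by simp⟩
      smul_mem' := by
        rintro r v ⟨m, e, hm, ⟨κ, hκ⟩, he⟩
        refine ⟨m * r.den, fun a => r.num * e a, Nat.mul_pos hm r.den_pos, ⟨κ ^ r.num, ?_⟩, ?_⟩
        · rw [hpow, hκ, map_zpow₀]
        · intro a
          rw [Pi.smul_apply, smul_eq_mul]
          push_cast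
          rw [← he a]
          have h1 : (r.den : ℚ) * r = r.num := Rat.den_mul_eq_num r
          rw [← h1]
          ring }
  have hx : (Pi.single i 1 - Pi.single j 1 : Fin q → ℚ) ∉ V := by
    rintro ⟨m, e, hm, ⟨κ, hκ⟩, he⟩
    apply hij
    have h1 : (u i / u j) ^ m = algebraMap K Ω κ := by
      have h2 : e = fun a => (m : ℤ) * ((Pi.single i 1 - Pi.single j 1 : Fin q → ℤ) a) := by
        funext a
        have h3 := he a
        have h4 : ((Pi.single i 1 - Pi.single j 1 : Fin q → ℚ) a) =
            (((Pi.single i 1 - Pi.single j 1 : Fin q → ℤ) a : ℤ) : ℚ) := by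
          simp only [Pi.sub_apply, Pi.single_apply]
          push_cast
          rfl
        rw [h4] at h3
        exact_mod_cast h3.symm
      rw [h2, hpow] at hκ
      have h5 : ∏ a, u a ^ ((Pi.single i 1 - Pi.single j 1 : Fin q → ℤ) a) = u i / u j := by
        have h6 : ∀ a, u a ^ ((Pi.single i 1 - Pi.single j 1 : Fin q → ℤ) a) =
            (if a = i then u a else 1) * (if a = j then (u a)⁻¹ else 1) := by
          intro a
          rw [Pi.sub_apply, zpow_sub₀ (hu0 a), Pi.single_apply, Pi.single_apply]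
          split_ifs <;> simp [div_eq_mul_inv]
        simp_rw [h6]
        rw [Finset.prod_mul_distrib, Finset.prod_ite_eq' Finset.univ i, Finset.prod_ite_eq' Finset.univ j]
        simp only [Finset.mem_univ, if_true]
        rw [div_eq_mul_inv]
      rw [h5, zpow_natCast] at hκ
      exact hκ
    exact D.root _ (Dat.U.div (hu i) (hu j)).2.1 m hm κ h1
  obtain ⟨φ, hφx, hφV⟩ := Submodule.exists_dual_map_eq_bot_of_notMem hx inferInstance
  have hφ0 : ∀ v ∈ V, φ v = 0 := by
    intro v hv
    have h1 : φ v ∈ V.map φ := Submodule.mem_map_of_mem hv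
    rw [hφV] at h1
    exact (Submodule.mem_bot ℚ).1 h1
  -- clear denominators
  set N : ℕ := ∏ a, (φ (Pi.single a 1)).den with hN
  have hN0 : (N : ℚ) ≠ 0 := by
    have : N ≠ 0 := Finset.prod_ne_zero_iff.2 fun a _ => (φ (Pi.single a 1)).den_nz
    exact_mod_cast this
  have hn : ∀ a, ∃ z : ℤ, (z : ℚ) = N * φ (Pi.single a 1) := by
    intro a
    obtain ⟨M, hM⟩ := Finset.dvd_prod_of_mem (fun a => (φ (Pi.single a 1)).den) (Finset.mem_univ a)
    refine ⟨M * (φ (Pi.single a 1)).num, ?_⟩
    rw [hN, hM]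
    push_cast
    have h1 : ((φ (Pi.single a 1)).den : ℚ) * φ (Pi.single a 1) = (φ (Pi.single a 1)).num :=
      Rat.den_mul_eq_num _
    rw [← h1]
    ring
  choose n hn using hn
  refine ⟨n, ?_, ?_⟩
  · intro h
    apply hφx
    rw [map_sub, sub_eq_zero]
    have h1 : (n i : ℚ) = n j := by rw [h]
    rw [hn, hn] at h1
    exact mul_left_cancel₀ hN0 h1
  · intro e he
    have h1 : (fun a => (e a : ℚ)) ∈ V := ⟨1, e, one_pos, he, fun a => by push_cast; ring⟩
    have h2 := hφ0 _ h1
    have h3 : φ (fun a => (e a : ℚ)) = ∑ a, (e a : ℚ) * φ (Pi.single a 1) := by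
      conv_lhs => rw [← Finset.univ_sum_single (fun a => (e a : ℚ))]
      rw [map_sum]
      refine Finset.sum_congr rfl fun a _ => ?_
      have : (Pi.single a (e a : ℚ) : Fin q → ℚ) = (e a : ℚ) • Pi.single a 1 := by
        rw [← Pi.single_smul, smul_eq_mul, mul_one]
      rw [this, map_smul, smul_eq_mul]
    have h4 : ((∑ a, e a * n a : ℤ) : ℚ) = 0 := by
      push_cast
      have h5 : ∑ a, (e a : ℚ) * (n a : ℚ) = N * ∑ a, (e a : ℚ) * φ (Pi.single a 1) := by
        rw [Finset.mul_sum]
        refine Finset.sum_congr rfl fun a _ => ?_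
        rw [hn]
        ring
      rw [h5, ← h3, h2, mul_zero]
    exact_mod_cast h4

theorem spread (D : SL.Dat K Ω) {q : ℕ} (u : Fin q → Ω)
    (hu : ∀ i, D.U (u i)) (hnc : ∃ i j, ¬ SL.Cst K (u i / u j)) (P : MvPolynomial (Fin q) K) (hP : aeval u P = 0) :
    ∃ n : Fin q → ℤ, (∃ i j, n i ≠ n j) ∧ ∀ T : Ω, T ≠ 0 → aeval (fun i => T ^ n i * u i) P = 0 := by
  classical
  obtain ⟨i, j, hij⟩ := hnc
  obtain ⟨n, hn1, hn2⟩ := exists_weight D u hu i j hij
  refine ⟨n, ⟨i, j, hn1⟩, fun T hT => ?_⟩
  have hu0 : ∀ a, u a ≠ 0 := fun a => (hu a).1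
  set y : (Fin q →₀ ℕ) → Ω := fun m => ∏ a, u a ^ m a with hy
  set f : (Fin q →₀ ℕ) → ℤ := fun m => ∑ a, (m a : ℤ) * n a with hf
  have hyU : ∀ m, D.U (y m) := fun m => Dat.U.prod _ fun a _ => (hu a).pow _
  have hfc : ∀ m m', (∃ κ : K, y m = algebraMap K Ω κ * y m') → f m = f m' := by
    rintro m m' ⟨κ, hκ⟩
    have h1 := hn2 (fun a => (m a : ℤ) - m' a) ⟨κ, by
      have h2 : ∏ a, u a ^ ((m a : ℤ) - m' a) = y m / y m' := by
        rw [hy, ← Finset.prod_div_distrib]
        refine Finset.prod_congr rfl fun a _ => ?_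
        rw [zpow_sub₀ (hu0 a), zpow_natCast, zpow_natCast]
      rw [h2, hκ, mul_div_cancel_right₀ _ (hyU m').1]⟩
    have h2 : f m - f m' = ∑ a, ((m a : ℤ) - m' a) * n a := by
      rw [hf, ← Finset.sum_sub_distrib]
      exact Finset.sum_congr rfl fun a _ => by ring
    rw [← h2] at h1
    exact sub_eq_zero.1 h1
  have hPe : ∀ z : Fin q → Ω, aeval z P = ∑ m ∈ P.support, algebraMap K Ω (P.coeff m) * ∏ a, z a ^ m a := by
    intro z
    rw [aeval_def, eval₂_eq']
  have h0 : ∑ m ∈ P.support, algebraMap K Ω (P.coeff m) * y m = 0 := by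
    rw [← hP, hPe]
  have h1 := weight_sum D y hyU f hfc _ P.support (fun m => P.coeff m) rfl h0
  rw [hPe]
  have h2 : ∀ m ∈ P.support, algebraMap K Ω (P.coeff m) * ∏ a, (T ^ n a * u a) ^ m a =
      T ^ f m * (algebraMap K Ω (P.coeff m) * y m) := by
    intro m _
    have h3 : ∏ a, (T ^ n a * u a) ^ m a = T ^ f m * y m := by
      rw [hf, hy]
      simp only
      rw [zpow_sum' _ _ hT, ← Finset.prod_mul_distrib]
      refine Finset.prod_congr rfl fun a _ => ?_
      rw [mul_pow, ← zpow_natCast (T ^ n a), ← zpow_mul, mul_comm (n a)]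
    rw [h3]
    ring
  rw [Finset.sum_congr rfl h2, ← Finset.sum_fiberwise_of_maps_to (g := f) (t := P.support.image f)
    (fun m hm => Finset.mem_image_of_mem f hm)]
  refine Finset.sum_eq_zero fun w _ => ?_
  have h3 : ∀ m ∈ P.support.filter (fun m => f m = w), T ^ f m * (algebraMap K Ω (P.coeff m) * y m) =
      T ^ w * (algebraMap K Ω (P.coeff m) * y m) := by
    intro m hm
    rw [(Finset.mem_filter.1 hm).2]
  rw [Finset.sum_congr rfl h3, ← Finset.mul_sum, h1 w, mul_zero]

end Pool.Agent.EX
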