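import Pool.Agent.Helper77.EX.Lines

/-!
# Block B3: three levels, first kind
-/

set_option autoImplicit false

namespace Pool.Agent.EX

variable {E : Type*} [Field E] [CharZero E]

theorem kindA (v : Fin 6 → Fin 3 → E) (hv : GP6 v) (F0 F1 F2 : Fin 6 → E) (α M : ℕ) (hα : 0 < α) (hM : α < M)
    (h : ∀ T : E, disc (fun m => F0 m + T ^ α * F1 m + T ^ M * F2 m) = 0)
    (h0 : ∀ i, val F0 (v i) = 0 ↔ i ≠ 0 ∧ i ≠ 1) (h1 : ∀ i, val F1 (v i) = 0 ↔ i ≠ 2 ∧ i ≠ 3)
    (h2 : ∀ i, val F2 (v i) = 0 ↔ i ≠ 4 ∧ i ≠ 5) (L : Fin 3 → E) (hL0 : L ≠ 0) (hL : ∀ w, bil F0 L w = 0)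
    (hLF1 : val F1 L = 0) (L' : Fin 3 → E) (hL'0 : L' ≠ 0) (hL' : ∀ w, bil F2 L' w = 0) (hL'F1 : val F1 L' = 0)
    (hA : det3 (v 2) (v 3) L = 0) (hA' : det3 (v 4) (v 5) L = 0) :
    ∀ w, bil F1 L w = 0 ∧ bil F2 L w = 0 := by
  have g : ∀ a b c : Fin 6, a ≠ b → a ≠ c → b ≠ c → det3 (v a) (v b) (v c) ≠ 0 := hv
  have F02 : val F0 (v 2) = 0 := (h0 2).2 (by decide)
  have F03 : val F0 (v 3) = 0 := (h0 3).2 (by decide)
  have F04 : val F0 (v 4) = 0 := (h0 4).2 (by decide)
  have F05 : val F0 (v 5) = 0 := (h0 5).2 (by decide)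
  have F10 : val F1 (v 0) = 0 := (h1 0).2 (by decide)
  have F11 : val F1 (v 1) = 0 := (h1 1).2 (by decide)
  have F14 : val F1 (v 4) = 0 := (h1 4).2 (by decide)
  have F15 : val F1 (v 5) = 0 := (h1 5).2 (by decide)
  have F20 : val F2 (v 0) = 0 := (h2 0).2 (by decide)
  have F21 : val F2 (v 1) = 0 := (h2 1).2 (by decide)
  have F22 : val F2 (v 2) = 0 := (h2 2).2 (by decide)
  have F23 : val F2 (v 3) = 0 := (h2 3).2 (by decide)
  have F00 : val F0 (v 0) ≠ 0 := fun e => ((h0 0).1 e).1 rfl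
  have F12 : val F1 (v 2) ≠ 0 := fun e => ((h1 2).1 e).1 rfl
  have F24 : val F2 (v 4) ≠ 0 := fun e => ((h2 4).1 e).1 rfl
  -- `L` on the two lines
  obtain ⟨x, y, hxy⟩ := comb (g 4 5 0 (by decide) (by decide) (by decide)) hA'
  obtain ⟨x', y', hxy'⟩ := comb (g 2 3 0 (by decide) (by decide) (by decide)) hA
  have hne : ∀ (a b : Fin 3 → E) (s t : E) (N : Fin 3 → E), N ≠ 0 → (∀ m, N m = s * a m + t * b m) →
      s = 0 → t ≠ 0 := by
    intro a b s t N hN hc hs ht
    apply hN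
    funext m
    rw [hc m, hs, ht]
    simp
  have hx : x ≠ 0 := by
    intro hx
    have hy := hne _ _ _ _ _ hL0 hxy hx
    rw [det3_comb _ _ _ _ _ _ _ hxy, hx, zero_mul, zero_add] at hA
    exact (mul_ne_zero hy (g 2 3 5 (by decide) (by decide) (by decide))) hA
  have hy : y ≠ 0 := by
    intro hy
    rw [det3_comb _ _ _ _ _ _ _ hxy, hy, zero_mul, add_zero] at hA
    exact (mul_ne_zero hx (g 2 3 4 (by decide) (by decide) (by decide))) hA
  have hx' : x' ≠ 0 := by
    intro hx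
    have hy := hne _ _ _ _ _ hL0 hxy' hx
    rw [det3_comb _ _ _ _ _ _ _ hxy', hx, zero_mul, zero_add] at hA'
    exact (mul_ne_zero hy (g 4 5 3 (by decide) (by decide) (by decide))) hA'
  have hy' : y' ≠ 0 := by
    intro hy
    rw [det3_comb _ _ _ _ _ _ _ hxy', hy, zero_mul, add_zero] at hA'
    exact (mul_ne_zero hx' (g 4 5 2 (by decide) (by decide) (by decide))) hA'
  have b145 : bil F1 (v 4) (v 5) = 0 := by
    rw [val_comb _ _ _ _ _ _ hxy, F14, F15, mul_zero, mul_zero, zero_add, zero_add] at hLF1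
    exact (mul_eq_zero.1 hLF1).resolve_left (mul_ne_zero hx hy)
  have b045 : bil F0 (v 4) (v 5) = 0 := by
    have e := hL (v 5)
    rw [bil_comb _ _ _ _ _ _ _ hxy, bil_self, F05, mul_zero, mul_zero, add_zero] at e
    exact (mul_eq_zero.1 e).resolve_left hx
  have b023 : bil F0 (v 2) (v 3) = 0 := by
    have e := hL (v 3)
    rw [bil_comb _ _ _ _ _ _ _ hxy', bil_self, F03, mul_zero, mul_zero, add_zero] at e
    exact (mul_eq_zero.1 e).resolve_left hx'
  obtain ⟨k0, hk0⟩ := lines F0 (v 2) (v 3) (v 4) (v 5) (g 2 3 4 (by decide) (by decide) (by decide))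
    (g 3 4 5 (by decide) (by decide) (by decide)) F02 F03 F04 b023 b045
  have hk0' : k0 ≠ 0 := by
    rintro rfl
    apply F00
    rw [hk0]
    simp [val]
  have d045 := g 4 5 0 (by decide) (by decide) (by decide)
  have dF0 : disc F0 = 0 := disc_line _ _ _ _ d045 F04 F05 b045
  have dF1 : disc F1 = 0 := disc_line _ _ _ _ d045 F14 F15 b145
  have d01 : dd F0 F1 = 0 := dd_line _ _ _ _ _ d045 F04 F05 b045 F14 F15 b145
  have d10 : dd F1 F0 = 0 := dd_line _ _ _ _ _ d045 F14 F15 b145 F04 F05 b045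
  -- the coefficient of `T ^ M`
  have d02 : dd F0 F2 = 0 := by
    obtain ⟨a, rfl⟩ : ∃ a, α = a + 1 := ⟨α - 1, by omega⟩
    obtain ⟨b, rfl⟩ : ∃ b, M = b + 1 := ⟨M - 1, by omega⟩
    refine low (dd F0 F2) (Polynomial.C (dd F1 F2) * Polynomial.X ^ (2 * a + 1) +
      Polynomial.C (dd F2 F0) * Polynomial.X ^ b + Polynomial.C (dd F2 F1) * Polynomial.X ^ (b + a + 1) +
      Polynomial.C (tri F0 F1 F2) * Polynomial.X ^ a + Polynomial.C (disc F2) * Polynomial.X ^ (2 * b + 1))
      fun T hT => ?_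
    have e := h T
    have e' := disc_lin F0 F1 F2 1 (T ^ (a + 1)) (T ^ (b + 1))
    simp only [one_mul] at e'
    rw [e', dF0, dF1, d01, d10] at e
    simp only [Polynomial.eval_add, Polynomial.eval_mul, Polynomial.eval_C, Polynomial.eval_pow, Polynomial.eval_X]
    apply mul_left_cancel₀ (pow_ne_zero (b + 1) hT)
    rw [mul_zero, ← e]
    ring
  have vF2 : val F2 (crs (crs (v 2) (v 3)) (crs (v 4) (v 5))) = 0 := by
    rw [hk0, dd_prd, neg_eq_zero] at d02
    exact (mul_eq_zero.1 d02).resolve_left (pow_ne_zero 2 hk0')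
  have b223 : bil F2 (v 2) (v 3) = 0 := by
    have e : ∀ m, (crs (crs (v 2) (v 3)) (crs (v 4) (v 5))) m =
        (- det3 (v 4) (v 5) (v 3)) * v 2 m + det3 (v 4) (v 5) (v 2) * v 3 m := by
      intro m
      have e0 : (crs (crs (v 2) (v 3)) (crs (v 4) (v 5))) 0 =
        (- det3 (v 4) (v 5) (v 3)) * v 2 0 + det3 (v 4) (v 5) (v 2) * v 3 0 := by
        simp only [crs, det3, Matrix.cons_val]
        ring
      have e1 : (crs (crs (v 2) (v 3)) (crs (v 4) (v 5))) 1 =
        (- det3 (v 4) (v 5) (v 3)) * v 2 1 + det3 (v 4) (v 5) (v 2) * v 3 1 := by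
        simp only [crs, det3, Matrix.cons_val]
        ring
      have e2 : (crs (crs (v 2) (v 3)) (crs (v 4) (v 5))) 2 =
        (- det3 (v 4) (v 5) (v 3)) * v 2 2 + det3 (v 4) (v 5) (v 2) * v 3 2 := by
        simp only [crs, det3, Matrix.cons_val]
        ring
      fin_cases m
      · exact e0
      · exact e1
      · exact e2
    rw [val_comb _ _ _ _ _ _ e, F22, F23, mul_zero, mul_zero, zero_add, zero_add] at vF2
    exact (mul_eq_zero.1 vF2).resolve_left (mul_ne_zero (neg_ne_zero.2 (g 4 5 3 (by decide) (by decide) (by decide)))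
      (g 4 5 2 (by decide) (by decide) (by decide)))
  -- `L'`
  have hB : det3 (v 2) (v 3) L' = 0 := by
    by_contra hc
    have e1 : val F2 L' = 0 := by
      have := hL' L'
      rw [bil_self] at this
      exact (mul_eq_zero.1 this).resolve_left two_ne_zero
    have e2 : bil F2 (v 2) L' = 0 := by rw [bil_comm]; exact hL' _
    have e3 : bil F2 (v 3) L' = 0 := by rw [bil_comm]; exact hL' _
    have e4 : det3 (v 2) (v 3) L' ^ 2 * val F2 (v 4) = 0 := by
      have e5 : val F2 (fun m => det3 (v 2) (v 3) L' * v 4 m) = det3 (v 2) (v 3) L' ^ 2 * val F2 (v 4) := by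
        simp only [val]
        ring
      rw [← e5, val_comb3 F2 (v 2) (v 3) L' _ _ _ _ (fun m => cramer (v 2) (v 3) L' (v 4) m), F22, F23, e1, b223, e2, e3]
      ring
    exact F24 ((mul_eq_zero.1 e4).resolve_left (pow_ne_zero 2 hc))
  obtain ⟨s, t, hst⟩ := comb (g 2 3 0 (by decide) (by decide) (by decide)) hB
  -- `(v 0, v 1, L')` are dependent
  have hB' : det3 (v 0) (v 1) L' = 0 := by
    have c := cramer (v 2) (v 3) (v 0) (v 1)
    set D := det3 (v 2) (v 3) (v 0) with hD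
    have hD0 : D ≠ 0 := g 2 3 0 (by decide) (by decide) (by decide)
    set e := det3 (v 1) (v 3) (v 0) with he
    set f := det3 (v 2) (v 1) (v 0) with hf
    set γ := det3 (v 2) (v 3) (v 1) with hγ
    have hγ0 : γ ≠ 0 := g 2 3 1 (by decide) (by decide) (by decide)
    have e1 : s * bil F2 (v 2) (v 0) + t * bil F2 (v 3) (v 0) = 0 := by
      have := hL' (v 0)
      rwa [bil_comb _ _ _ _ _ _ _ hst] at this
    have e2 : e * bil F2 (v 2) (v 0) + f * bil F2 (v 3) (v 0) = 0 := by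
      have e5 : val F2 (fun m => D * v 1 m) = D ^ 2 * val F2 (v 1) := by
        simp only [val]
        ring
      rw [F21, mul_zero, val_comb3 F2 (v 2) (v 3) (v 0) _ _ _ _ c, F22, F23, F20, b223] at e5
      have e6 : γ * (e * bil F2 (v 2) (v 0) + f * bil F2 (v 3) (v 0)) = 0 := by
        rw [← e5]
        ring
      exact (mul_eq_zero.1 e6).resolve_left hγ0
    have e3 : ¬ (bil F2 (v 2) (v 0) = 0 ∧ bil F2 (v 3) (v 0) = 0) := by
      rintro ⟨z1, z2⟩
      apply F24
      have e4 : D ^ 2 * val F2 (v 4) = 0 := by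
        have e5 : val F2 (fun m => D * v 4 m) = D ^ 2 * val F2 (v 4) := by
          simp only [val]
          ring
        rw [← e5, val_comb3 F2 (v 2) (v 3) (v 0) _ _ _ _ (fun m => cramer (v 2) (v 3) (v 0) (v 4) m), F22, F23, F20,
          b223, z1, z2]
        ring
      exact (mul_eq_zero.1 e4).resolve_left (pow_ne_zero 2 hD0)
    have e4 : s * f - t * e = 0 := by
      by_cases z1 : bil F2 (v 2) (v 0) = 0
      · have z2 : bil F2 (v 3) (v 0) ≠ 0 := fun z2 => e3 ⟨z1, z2⟩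
        apply mul_left_cancel₀ z2
        linear_combination s * e2 - e * e1
      · apply mul_left_cancel₀ z1
        linear_combination f * e1 - t * e2
    have e5 : D * det3 (v 0) (v 1) L' = (e * t - f * s) * D := det3_two _ _ _ _ _ _ _ _ _ _ _ c hst
    apply mul_left_cancel₀ hD0
    rw [e5]
    linear_combination - D * e4
  obtain ⟨p, r, hpr⟩ := comb (g 0 1 2 (by decide) (by decide) (by decide)) hB'
  have hp : p ≠ 0 := by
    intro hp
    have hr := hne _ _ _ _ _ hL'0 hpr hp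
    rw [det3_comb _ _ _ _ _ _ _ hpr, hp, zero_mul, zero_add] at hB
    exact (mul_ne_zero hr (g 2 3 1 (by decide) (by decide) (by decide))) hB
  have hr : r ≠ 0 := by
    intro hr
    rw [det3_comb _ _ _ _ _ _ _ hpr, hr, zero_mul, add_zero] at hB
    exact (mul_ne_zero hp (g 2 3 0 (by decide) (by decide) (by decide))) hB
  have b101 : bil F1 (v 0) (v 1) = 0 := by
    rw [val_comb _ _ _ _ _ _ hpr, F10, F11, mul_zero, mul_zero, zero_add, zero_add] at hL'F1
    exact (mul_eq_zero.1 hL'F1).resolve_left (mul_ne_zero hp hr)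
  have b201 : bil F2 (v 0) (v 1) = 0 := by
    have e := hL' (v 1)
    rw [bil_comb _ _ _ _ _ _ _ hpr, bil_self, F21, mul_zero, mul_zero, add_zero] at e
    exact (mul_eq_zero.1 e).resolve_left hp
  obtain ⟨k1, hk1⟩ := lines F1 (v 0) (v 1) (v 4) (v 5) (g 0 1 4 (by decide) (by decide) (by decide))
    (g 1 4 5 (by decide) (by decide) (by decide)) F10 F11 F14 b101 b145
  obtain ⟨k2, hk2⟩ := lines F2 (v 0) (v 1) (v 2) (v 3) (g 0 1 2 (by decide) (by decide) (by decide))
    (g 1 2 3 (by decide) (by decide) (by decide)) F20 F21 F22 b201 b223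
  have hk1' : k1 ≠ 0 := by
    rintro rfl
    apply F12
    rw [hk1]
    simp [val]
  have hk2' : k2 ≠ 0 := by
    rintro rfl
    apply F24
    rw [hk2]
    simp [val]
  have hdet : det3 (crs (v 0) (v 1)) (crs (v 2) (v 3)) (crs (v 4) (v 5)) = 0 := by
    have e := h 1
    have e' : (fun m => F0 m + (1 : E) ^ α * F1 m + 1 ^ M * F2 m) =
        fun m => k0 * prd (crs (v 2) (v 3)) (crs (v 4) (v 5)) m + k1 * prd (crs (v 0) (v 1)) (crs (v 4) (v 5)) m +
          k2 * prd (crs (v 0) (v 1)) (crs (v 2) (v 3)) m := by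
      funext m
      conv_lhs => rw [hk0, hk1, hk2]
      simp
    rw [e', disc_three] at e
    exact pow_eq_zero_iff (two_ne_zero) |>.1
      ((mul_eq_zero.1 e).resolve_left (mul_ne_zero (mul_ne_zero hk0' hk1') hk2'))
  have l23 : dot L (crs (v 2) (v 3)) = 0 := by rw [dot_comm, det3_crs]; exact hA
  have l45 : dot L (crs (v 4) (v 5)) = 0 := by rw [dot_comm, det3_crs]; exact hA'
  have l01 : dot L (crs (v 0) (v 1)) = 0 := by
    rw [dot_comm, det3_crs]
    have e1 : x * det3 (v 2) (v 3) (v 4) + y * det3 (v 2) (v 3) (v 5) = 0 := by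
      rw [← det3_comb _ _ _ _ _ _ _ hxy]
      exact hA
    have e2 : det3 (v 2) (v 3) (v 5) * det3 (v 0) (v 1) (v 4) - det3 (v 2) (v 3) (v 4) * det3 (v 0) (v 1) (v 5) = 0 := by
      rw [← hdet]
      simp only [det3, crs, Matrix.cons_val]
      ring
    apply mul_left_cancel₀ (g 2 3 5 (by decide) (by decide) (by decide))
    rw [det3_comb _ _ _ _ _ _ _ hxy]
    linear_combination x * e2 + det3 (v 0) (v 1) (v 5) * e1
  intro w
  refine ⟨?_, ?_⟩
  · rw [hk1, bil_smul, bil_prd, l01, l45]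
    ring
  · rw [hk2, bil_smul, bil_prd, l01, l23]
    ring

end Pool.Agent.EX
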