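import Pool.Agent.Helper77.EX.Lines

/-!
# Block B4: three levels, second kind
-/

set_option autoImplicit false

namespace Pool.Agent.EX

section ring

variable {R : Type*} [CommRing R]

theorem val_scale (q : Fin 6 → R) (v w : Fin 3 → R) (k : R) (h : ∀ m, w m = k * v m) :
    val q w = k ^ 2 * val q v := by
  simp only [val, h]
  ring

theorem val_pull3 (q : Fin 6 → R) (a b c : Fin 3 → R) (x y z : R) (v : Fin 3 → R) (k : R)
    (h : ∀ m, k * v m = x * a m + y * b m + z * c m) (hv : val q v = 0) : val (pull q a b c) ![x, y, z] = 0 := by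
  rw [val_pull, val_scale q v _ k (fun m => (h m).symm), hv, mul_zero]

end ring

variable {E : Type*} [Field E]

/-- the computation in coordinates -/
theorem kindB_coord (G0 G1 G2 : Fin 6 → E) (x y z w : E) (hx : x ≠ 0) (hy : y ≠ 0) (hz : z ≠ 1) (hw : w ≠ 1)
    (a0 : G0 0 = 0) (a1 : G0 1 = 0) (a2 : G0 2 = 0) (a3 : G0 3 = 0) (a4 : G0 4 = 0) (a5 : G0 5 ≠ 0)
    (b0 : G2 0 = 0) (b1 : G2 1 = 0) (b2 : G2 2 = G2 5) (b3 : G2 3 = - G2 5) (b4 : G2 4 = - G2 5) (b5 : G2 5 ≠ 0)
    (c2 : G1 2 = 0) (c0 : G1 0 ≠ 0) (c1 : G1 1 ≠ 0) (p4 : val G1 ![x, 0, 1] = 0) (p5 : val G1 ![0, y, 1] = 0)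
    (pL : val G1 ![1, 1, 1] = 0) (p0 : val G1 ![z, 1, 1] = 0) (p1 : val G1 ![1, w, 1] = 0)
    (e1 : dd G1 G0 + dd G0 G2 = 0) (e2 : disc G1 + tri G0 G1 G2 = 0) (e3 : dd G1 G2 + dd G2 G0 = 0) :
    (x = y ∧ z = 1 - x ∧ w = 1 - x) ∨ z = 0 := by
  set a := G1 0 with ha
  set b := G1 1 with hb
  set k0 := G0 5 with hk0
  set k2 := G2 5 with hk2
  -- coefficients of `G1`
  have h4 : G1 4 = - a * x := by
    simp only [val, Matrix.cons_val, c2] at p4
    apply mul_left_cancel₀ hx
    linear_combination p4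
  have h3 : G1 3 = - b * y := by
    simp only [val, Matrix.cons_val, c2] at p5
    apply mul_left_cancel₀ hy
    linear_combination p5
  have h5 : G1 5 = a * (x - 1) + b * (y - 1) := by
    simp only [val, Matrix.cons_val, c2, h3, h4] at pL
    linear_combination pL
  have hz' : a * z = b * (1 - y) := by
    simp only [val, Matrix.cons_val, c2, h3, h4, h5] at p0
    apply mul_left_cancel₀ (sub_ne_zero.2 hz)
    linear_combination p0
  have hw' : b * w = a * (1 - x) := by
    simp only [val, Matrix.cons_val, c2, h3, h4, h5] at p1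
    apply mul_left_cancel₀ (sub_ne_zero.2 hw)
    linear_combination p1
  have f1 : k0 * k2 = a * b * x * y := by
    simp only [dd, a0, a1, a2, a3, a4, b0, b1, b2, b3, b4, c2, h3, h4, h5, ← ha, ← hb, ← hk0, ← hk2] at e1
    apply mul_left_cancel₀ a5
    linear_combination - e1
  have f3 : (a - b) * (a * (x - 1) - b * (y - 1)) = 0 := by
    simp only [dd, a0, a1, a2, a3, a4, b0, b1, b2, b3, b4, c2, h3, h4, h5, ← ha, ← hb, ← hk0, ← hk2] at e3
    apply mul_left_cancel₀ b5
    linear_combination e3 + k2 * f1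
  have f2 : (y - x) * (a * x - b * y) = 0 := by
    simp only [tri, disc, dd, a0, a1, a2, a3, a4, b0, b1, b2, b3, b4, c2, h3, h4, h5, ← ha, ← hb, ← hk0, ← hk2] at e2
    apply mul_left_cancel₀ (mul_ne_zero c0 c1)
    linear_combination e2 - (a * x + b * y - 2 * (a * (x - 1) + b * (y - 1))) * f1
  rcases eq_or_ne a b with hab | hab
  · left
    have hxy : x = y := by
      rw [hab] at f2
      rcases mul_eq_zero.1 f2 with h | h
      · exact (sub_eq_zero.1 h).symm
      · exact mul_left_cancel₀ c1 (sub_eq_zero.1 h)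
    refine ⟨hxy, ?_, ?_⟩
    · apply mul_left_cancel₀ c1
      rw [hab] at hz'
      rw [hz', hxy]
    · apply mul_left_cancel₀ c1
      rw [hw', hab]
  · right
    have h6 := (mul_eq_zero.1 f3).resolve_left (sub_ne_zero.2 hab)
    rcases mul_eq_zero.1 f2 with h | h
    · have hxy : y = x := sub_eq_zero.1 h
      rw [hxy] at h6
      have h7 : (a - b) * (x - 1) = 0 := by linear_combination h6
      have h8 := (mul_eq_zero.1 h7).resolve_left (sub_ne_zero.2 hab)
      have h9 : a * z = 0 := by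
        rw [hz', hxy]
        linear_combination - b * h8
      exact (mul_eq_zero.1 h9).resolve_left c0
    · exact absurd (by linear_combination h - h6) hab

/-- the exponents -/
theorem kindB_exp [CharZero E] (A B C Tr D G : E) (hB : B ≠ 0) (hG : G ≠ 0) (α M : ℕ) (hα : 0 < α) (hM : α < M)
    (h : ∀ T : E, T ^ (2 * α) * A + T ^ M * B + T ^ (3 * α) * C + T ^ (α + M) * Tr + T ^ (2 * α + M) * D +
      T ^ (2 * M) * G = 0) : A + B = 0 ∧ C + Tr = 0 ∧ D + G = 0 := by
  have hp : Polynomial.X ^ (2 * α) * Polynomial.C A + Polynomial.X ^ M * Polynomial.C B +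
      Polynomial.X ^ (3 * α) * Polynomial.C C + Polynomial.X ^ (α + M) * Polynomial.C Tr +
      Polynomial.X ^ (2 * α + M) * Polynomial.C D + Polynomial.X ^ (2 * M) * Polynomial.C G = 0 := by
    apply Polynomial.funext
    intro T
    simp only [Polynomial.eval_add, Polynomial.eval_mul, Polynomial.eval_pow, Polynomial.eval_X, Polynomial.eval_C,
      Polynomial.eval_zero]
    exact h T
  have hc : ∀ n : ℕ, (if n = 2 * α then A else 0) + (if n = M then B else 0) + (if n = 3 * α then C else 0) +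
      (if n = α + M then Tr else 0) + (if n = 2 * α + M then D else 0) + (if n = 2 * M then G else 0) = 0 := by
    intro n
    have := congrArg (fun p => Polynomial.coeff p n) hp
    simpa [Polynomial.coeff_X_pow_mul', Polynomial.coeff_mul_C, Polynomial.coeff_X_pow] using this
  have hM2 : M = 2 * α := by
    by_contra hne
    have h1 := hc M
    rw [if_neg (by omega : ¬ M = 2 * α), if_pos rfl, if_neg (by omega : ¬ M = α + M), if_neg (by omega : ¬ M = 2 * α + M),
      if_neg (by omega : ¬ M = 2 * M)] at h1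
    by_cases h3 : M = 3 * α
    · have h2 := hc (2 * M)
      rw [if_neg (by omega : ¬ 2 * M = 2 * α), if_neg (by omega : ¬ 2 * M = M), if_neg (by omega : ¬ 2 * M = 3 * α),
        if_neg (by omega : ¬ 2 * M = α + M), if_neg (by omega : ¬ 2 * M = 2 * α + M), if_pos rfl] at h2
      apply hG
      simpa using h2
    · rw [if_neg h3] at h1
      apply hB
      simpa using h1
  subst hM2
  refine ⟨?_, ?_, ?_⟩
  · have h1 := hc (2 * α)
    rw [if_pos rfl, if_pos rfl, if_neg (by omega : ¬ 2 * α = 3 * α), if_neg (by omega : ¬ 2 * α = α + 2 * α),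
      if_neg (by omega : ¬ 2 * α = 2 * α + 2 * α), if_neg (by omega : ¬ 2 * α = 2 * (2 * α))] at h1
    simpa using h1
  · have h1 := hc (3 * α)
    rw [if_neg (by omega : ¬ 3 * α = 2 * α), if_neg (by omega : ¬ 3 * α = 2 * α), if_pos rfl, if_pos (by omega : 3 * α = α + 2 * α),
      if_neg (by omega : ¬ 3 * α = 2 * α + 2 * α), if_neg (by omega : ¬ 3 * α = 2 * (2 * α))] at h1
    simpa using h1
  · have h1 := hc (4 * α)
    rw [if_neg (by omega : ¬ 4 * α = 2 * α), if_neg (by omega : ¬ 4 * α = 2 * α), if_neg (by omega : ¬ 4 * α = 3 * α),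
      if_neg (by omega : ¬ 4 * α = α + 2 * α), if_pos (by omega : 4 * α = 2 * α + 2 * α),
      if_pos (by omega : 4 * α = 2 * (2 * α))] at h1
    simpa using h1


theorem kindB [CharZero E] (v : Fin 6 → Fin 3 → E) (hv : GP6 v) (hnc : NC6 v) (F0 F1 F2 : Fin 6 → E) (α M : ℕ)
    (hα : 0 < α) (hM : α < M)
    (h : ∀ T : E, disc (fun m => F0 m + T ^ α * F1 m + T ^ M * F2 m) = 0)
    (h0 : ∀ i, val F0 (v i) = 0 ↔ i ≠ 0 ∧ i ≠ 1) (h1 : ∀ i, val F1 (v i) = 0 ↔ i ≠ 2 ∧ i ≠ 3)
    (h2 : ∀ i, val F2 (v i) = 0 ↔ i ≠ 4 ∧ i ≠ 5) (L : Fin 3 → E) (hL0 : L ≠ 0) (hL : ∀ w, bil F0 L w = 0)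
    (hLF1 : val F1 L = 0) (L' : Fin 3 → E) (hL'0 : L' ≠ 0) (hL' : ∀ w, bil F2 L' w = 0) (hL'F1 : val F1 L' = 0)
    (hA : det3 (v 2) (v 4) L = 0) (hA' : det3 (v 3) (v 5) L = 0)
    (hB : det3 (v 0) (v 2) L' = 0) (hB' : det3 (v 1) (v 3) L' = 0) : False := by
  have g : ∀ a b c : Fin 6, a ≠ b → a ≠ c → b ≠ c → det3 (v a) (v b) (v c) ≠ 0 := hv
  have F02 : val F0 (v 2) = 0 := (h0 2).2 (by decide)
  have F03 : val F0 (v 3) = 0 := (h0 3).2 (by decide)
  have F04 : val F0 (v 4) = 0 := (h0 4).2 (by decide)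
  have F05 : val F0 (v 5) = 0 := (h0 5).2 (by decide)
  have F10 : val F1 (v 0) = 0 := (h1 0).2 (by decide)
  have F11 : val F1 (v 1) = 0 := (h1 1).2 (by decide)
  have F14 : val F1 (v 4) = 0 := (h1 4).2 (by decide)
  have F15 : val F1 (v 5) = 0 := (h1 5).2 (by decide)
  have F20 : val F2 (v 0) = 0 := (h2 0).2 (by decide)
  have F21 : val F2 (v 1) = 0 := (h2 1).2 (by decide)
  have F22 : val F2 (v 2) = 0 := (h2 2).2 (by decide)
  have F23 : val F2 (v 3) = 0 := (h2 3).2 (by decide)
  have F00 : val F0 (v 0) ≠ 0 := fun e => ((h0 0).1 e).1 rfl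
  have F12 : val F1 (v 2) ≠ 0 := fun e => ((h1 2).1 e).1 rfl
  have F13 : val F1 (v 3) ≠ 0 := fun e => ((h1 3).1 e).2 rfl
  have F24 : val F2 (v 4) ≠ 0 := fun e => ((h2 4).1 e).1 rfl
  have hne : ∀ (a b : Fin 3 → E) (s t : E) (N : Fin 3 → E), N ≠ 0 → (∀ m, N m = s * a m + t * b m) →
      s = 0 → t ≠ 0 := by
    intro a b s t N hN hc hs ht
    apply hN
    funext m
    rw [hc m, hs, ht]
    simp
  have hne2 : ∀ (a b c d N : Fin 3 → E) (s t : E), N ≠ 0 → (∀ m, N m = s * a m + t * b m) → det3 c d a ≠ 0 →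
      det3 c d b ≠ 0 → det3 c d N = 0 → s ≠ 0 ∧ t ≠ 0 := by
    intro a b c d N s t hN hc ha hb hz
    rw [det3_comb _ _ _ _ _ _ _ hc] at hz
    have hs : s ≠ 0 := by
      intro hs
      have ht := hne _ _ _ _ _ hN hc hs
      rw [hs, zero_mul, zero_add] at hz
      exact mul_ne_zero ht hb hz
    refine ⟨hs, fun ht => ?_⟩
    rw [ht, zero_mul, add_zero] at hz
    exact mul_ne_zero hs ha hz
  obtain ⟨x1, y1, q1⟩ := comb (g 2 4 0 (by decide) (by decide) (by decide)) hA
  obtain ⟨x2, y2, q2⟩ := comb (g 3 5 0 (by decide) (by decide) (by decide)) hA'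
  obtain ⟨x3, y3, q3⟩ := comb (g 0 2 1 (by decide) (by decide) (by decide)) hB
  obtain ⟨x4, y4, q4⟩ := comb (g 1 3 0 (by decide) (by decide) (by decide)) hB'
  obtain ⟨hx1, hy1⟩ := hne2 _ _ _ _ _ _ _ hL0 q1 (g 3 5 2 (by decide) (by decide) (by decide))
    (g 3 5 4 (by decide) (by decide) (by decide)) hA'
  obtain ⟨hx2, hy2⟩ := hne2 _ _ _ _ _ _ _ hL0 q2 (g 2 4 3 (by decide) (by decide) (by decide))
    (g 2 4 5 (by decide) (by decide) (by decide)) hA
  obtain ⟨hx3, hy3⟩ := hne2 _ _ _ _ _ _ _ hL'0 q3 (g 1 3 0 (by decide) (by decide) (by decide))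
    (g 1 3 2 (by decide) (by decide) (by decide)) hB'
  obtain ⟨hx4, hy4⟩ := hne2 _ _ _ _ _ _ _ hL'0 q4 (g 0 2 1 (by decide) (by decide) (by decide))
    (g 0 2 3 (by decide) (by decide) (by decide)) hB
  -- the basis
  set D := det3 (v 2) (v 3) L with hD
  have hD0 : D ≠ 0 := by
    rw [hD, det3_comb _ _ _ _ _ _ _ q1]
    have : det3 (v 2) (v 3) (v 2) = 0 := by simp only [det3]; ring
    rw [this, mul_zero, zero_add]
    exact mul_ne_zero hy1 (g 2 3 4 (by decide) (by decide) (by decide))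
  set i := det3 L' (v 3) L with hi
  have hi0 : i ≠ 0 := by
    have e : i = x4 * y2 * det3 (v 1) (v 3) (v 5) := by
      rw [hi]
      simp only [det3, q4, q2]
      ring
    rw [e]
    exact mul_ne_zero (mul_ne_zero hx4 hy2) (g 1 3 5 (by decide) (by decide) (by decide))
  set j := det3 (v 2) L' L with hj
  have hj0 : j ≠ 0 := by
    have e : j = - (x3 * y1 * det3 (v 0) (v 2) (v 4)) := by
      rw [hj]
      simp only [det3, q3, q1]
      ring
    rw [e]
    exact neg_ne_zero.2 (mul_ne_zero (mul_ne_zero hx3 hy1) (g 0 2 4 (by decide) (by decide) (by decide)))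
  set n := det3 (v 2) (v 3) L' with hn
  have hn0 : n ≠ 0 := by
    have e : n = x3 * det3 (v 2) (v 3) (v 0) := by
      rw [hn]
      simp only [det3, q3]
      ring
    rw [e]
    exact mul_ne_zero hx3 (g 2 3 0 (by decide) (by decide) (by decide))
  have hcr : ∀ m, D * L' m = i * v 2 m + j * v 3 m + n * L m := fun m => cramer (v 2) (v 3) L L' m
  clear_value D i j n
  obtain ⟨I, hI⟩ : ∃ I : Fin 3 → E, I = fun m => i * v 2 m := ⟨_, rfl⟩
  obtain ⟨J, hJ⟩ : ∃ J : Fin 3 → E, J = fun m => j * v 3 m := ⟨_, rfl⟩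
  obtain ⟨N, hN⟩ : ∃ N : Fin 3 → E, N = fun m => n * L m := ⟨_, rfl⟩
  have I' : ∀ m, I m = i * v 2 m := fun m => by rw [hI]
  have J' : ∀ m, J m = j * v 3 m := fun m => by rw [hJ]
  have N' : ∀ m, N m = n * L m := fun m => by rw [hN]
  have hdet : det3 I J N ≠ 0 := by
    have e : det3 I J N = i * j * n * D := by
      rw [hD]
      simp only [det3, I', J', N']
      ring
    rw [e]
    exact mul_ne_zero (mul_ne_zero (mul_ne_zero hi0 hj0) hn0) hD0
  -- the points
  obtain ⟨x, hx⟩ : ∃ x : E, x = - (x1 * n / i) := ⟨_, rfl⟩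
  obtain ⟨y, hy⟩ : ∃ y : E, y = - (x2 * n / j) := ⟨_, rfl⟩
  obtain ⟨z, hz⟩ : ∃ z : E, z = 1 - y3 * D / i := ⟨_, rfl⟩
  obtain ⟨w, hw⟩ : ∃ w : E, w = 1 - y4 * D / j := ⟨_, rfl⟩
  have r4 : ∀ m, (y1 * n) * v 4 m = x * I m + 0 * J m + 1 * N m := by
    intro m
    rw [I', N', hx, q1]
    field_simp
    ring
  have r5 : ∀ m, (y2 * n) * v 5 m = 0 * I m + y * J m + 1 * N m := by
    intro m
    rw [J', N', hy, q2]
    field_simp
    ring
  have r6 : ∀ m, D * L' m = 1 * I m + 1 * J m + 1 * N m := by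
    intro m
    rw [I', J', N', hcr]
    ring
  have r0 : ∀ m, (x3 * D) * v 0 m = z * I m + 1 * J m + 1 * N m := by
    intro m
    have e := r6 m
    have e' := q3 m
    rw [hz, I', J', N'] at *
    have : (1 - y3 * D / i) * (i * v 2 m) = i * v 2 m - y3 * D * v 2 m := by field_simp
    rw [this]
    linear_combination e - D * e'
  have r1 : ∀ m, (x4 * D) * v 1 m = 1 * I m + w * J m + 1 * N m := by
    intro m
    have e := r6 m
    have e' := q4 m
    rw [hw, I', J', N'] at *
    have : (1 - y4 * D / j) * (j * v 3 m) = j * v 3 m - y4 * D * v 3 m := by field_simp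
    rw [this]
    linear_combination e - D * e'
  have hx0 : x ≠ 0 := by
    rw [hx]
    exact neg_ne_zero.2 (div_ne_zero (mul_ne_zero hx1 hn0) hi0)
  have hy0 : y ≠ 0 := by
    rw [hy]
    exact neg_ne_zero.2 (div_ne_zero (mul_ne_zero hx2 hn0) hj0)
  have hz1 : z ≠ 1 := by
    rw [hz]
    intro e
    have : y3 * D / i = 0 := by linear_combination - e
    exact div_ne_zero (mul_ne_zero hy3 hD0) hi0 this
  have hw1 : w ≠ 1 := by
    rw [hw]
    intro e
    have : y4 * D / j = 0 := by linear_combination - e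
    exact div_ne_zero (mul_ne_zero hy4 hD0) hj0 this
  -- `F0`, `F2`
  have vF0L : val F0 L = 0 := by
    have := hL L
    rw [bil_self] at this
    exact (mul_eq_zero.1 this).resolve_left two_ne_zero
  have vF2L : val F2 L' = 0 := by
    have := hL' L'
    rw [bil_self] at this
    exact (mul_eq_zero.1 this).resolve_left two_ne_zero
  have bN : ∀ w, bil F0 w N = 0 := by
    intro w
    have : bil F0 w N = n * bil F0 L w := by
      simp only [bil, N']
      ring
    rw [this, hL, mul_zero]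
  have bIJN : ∀ w, bil F2 I w + bil F2 J w + bil F2 N w = 0 := by
    intro w
    have : bil F2 I w + bil F2 J w + bil F2 N w = D * bil F2 L' w := by
      have e0 := r6 0
      have e1 := r6 1
      have e2 := r6 2
      simp only [bil]
      linear_combination (-(2 * F2 0 * w 0 + F2 4 * w 2 + F2 5 * w 1)) * e0 - (2 * F2 1 * w 1 + F2 3 * w 2 + F2 5 * w 0) * e1 -
        (2 * F2 2 * w 2 + F2 3 * w 1 + F2 4 * w 0) * e2
    rw [this, hL', mul_zero]
  obtain ⟨G0, hG0⟩ : ∃ G0 : Fin 6 → E, G0 = pull F0 I J N := ⟨_, rfl⟩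
  obtain ⟨G1, hG1⟩ : ∃ G1 : Fin 6 → E, G1 = pull F1 I J N := ⟨_, rfl⟩
  obtain ⟨G2, hG2⟩ : ∃ G2 : Fin 6 → E, G2 = pull F2 I J N := ⟨_, rfl⟩
  have a0 : G0 0 = 0 := by
    rw [hG0]
    simp only [pull, Matrix.cons_val]
    rw [val_scale _ _ _ _ I', F02, mul_zero]
  have a1 : G0 1 = 0 := by
    rw [hG0]
    simp only [pull, Matrix.cons_val]
    rw [val_scale _ _ _ _ J', F03, mul_zero]
  have a2 : G0 2 = 0 := by
    rw [hG0]
    simp only [pull, Matrix.cons_val]
    rw [val_scale _ _ _ _ N', vF0L, mul_zero]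
  have a3 : G0 3 = 0 := by
    rw [hG0]
    simp only [pull, Matrix.cons_val]
    exact bN _
  have a4 : G0 4 = 0 := by
    rw [hG0]
    simp only [pull, Matrix.cons_val]
    exact bN _
  have vG0 : ∀ x y z, val G0 ![x, y, z] = x * y * G0 5 := by
    intro x y z
    simp only [val, a0, a1, a2, a3, a4, Matrix.cons_val]
    ring
  have a5 : G0 5 ≠ 0 := by
    intro e
    apply F00
    have e1 : val G0 ![z, 1, 1] = (x3 * D) ^ 2 * val F0 (v 0) := by
      rw [hG0, val_pull]
      exact val_scale _ _ _ _ (fun m => (r0 m).symm)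
    rw [vG0, e, mul_zero] at e1
    exact (mul_eq_zero.1 e1.symm).resolve_left (pow_ne_zero 2 (mul_ne_zero hx3 hD0))
  have b0 : G2 0 = 0 := by
    rw [hG2]
    simp only [pull, Matrix.cons_val]
    rw [val_scale _ _ _ _ I', F22, mul_zero]
  have b1 : G2 1 = 0 := by
    rw [hG2]
    simp only [pull, Matrix.cons_val]
    rw [val_scale _ _ _ _ J', F23, mul_zero]
  have vI : val F2 I = 0 := by rw [val_scale _ _ _ _ I', F22, mul_zero]
  have vJ : val F2 J = 0 := by rw [val_scale _ _ _ _ J', F23, mul_zero]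
  have b4 : G2 4 = - G2 5 := by
    have e := bIJN I
    rw [bil_self, vI, bil_comm F2 J I, bil_comm F2 N I] at e
    rw [hG2]
    simp only [pull, Matrix.cons_val]
    linear_combination e
  have b3 : G2 3 = - G2 5 := by
    have e := bIJN J
    rw [bil_self, vJ, bil_comm F2 N J] at e
    rw [hG2]
    simp only [pull, Matrix.cons_val]
    linear_combination e
  have b2 : G2 2 = G2 5 := by
    have e := bIJN N
    rw [bil_self] at e
    have e3 := b3
    have e4 := b4
    rw [hG2] at e3 e4 ⊢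
    simp only [pull, Matrix.cons_val] at e3 e4 ⊢
    have e5 : 2 * (val F2 N - bil F2 I J) = 0 := by linear_combination e - e3 - e4
    exact sub_eq_zero.1 ((mul_eq_zero.1 e5).resolve_left two_ne_zero)
  have vG2 : ∀ x y z, val G2 ![x, y, z] = (x - z) * (y - z) * G2 5 := by
    intro x y z
    simp only [val, b0, b1, b2, b3, b4, Matrix.cons_val]
    ring
  have b5 : G2 5 ≠ 0 := by
    intro e
    apply F24
    have e1 : val G2 ![x, 0, 1] = (y1 * n) ^ 2 * val F2 (v 4) := by
      rw [hG2, val_pull]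
      exact val_scale _ _ _ _ (fun m => (r4 m).symm)
    rw [vG2, e, mul_zero] at e1
    exact (mul_eq_zero.1 e1.symm).resolve_left (pow_ne_zero 2 (mul_ne_zero hy1 hn0))
  have c2 : G1 2 = 0 := by
    rw [hG1]
    simp only [pull, Matrix.cons_val]
    rw [val_scale _ _ _ _ N', hLF1, mul_zero]
  have c0 : G1 0 ≠ 0 := by
    rw [hG1]
    simp only [pull, Matrix.cons_val]
    rw [val_scale _ _ _ _ I']
    exact mul_ne_zero (pow_ne_zero 2 hi0) F12
  have c1 : G1 1 ≠ 0 := by
    rw [hG1]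
    simp only [pull, Matrix.cons_val]
    rw [val_scale _ _ _ _ J']
    exact mul_ne_zero (pow_ne_zero 2 hj0) F13
  have p4 : val G1 ![x, 0, 1] = 0 := hG1 ▸ val_pull3 F1 I J N x 0 1 (v 4) _ r4 F14
  have p5 : val G1 ![0, y, 1] = 0 := hG1 ▸ val_pull3 F1 I J N 0 y 1 (v 5) _ r5 F15
  have pL : val G1 ![1, 1, 1] = 0 := hG1 ▸ val_pull3 F1 I J N 1 1 1 L' _ r6 hL'F1
  have p0 : val G1 ![z, 1, 1] = 0 := hG1 ▸ val_pull3 F1 I J N z 1 1 (v 0) _ r0 F10
  have p1 : val G1 ![1, w, 1] = 0 := hG1 ▸ val_pull3 F1 I J N 1 w 1 (v 1) _ r1 F11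
  -- the discriminants
  have hdG : ∀ T : E, disc (fun m => G0 m + T ^ α * G1 m + T ^ M * G2 m) = 0 := by
    intro T
    have e : (fun m => G0 m + T ^ α * G1 m + T ^ M * G2 m) =
        pull (fun m => F0 m + T ^ α * F1 m + T ^ M * F2 m) I J N := by
      funext m
      rw [hG0, hG1, hG2]
      fin_cases m <;> simp [pull, val, bil] <;> ring
    rw [e, disc_pull, h, zero_mul]
  have t0 : disc G0 = 0 := by
    simp only [disc, a0, a1, a2, a3, a4]
    ring
  have t2 : disc G2 = 0 := by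
    simp only [disc, b0, b1, b2, b3, b4]
    ring
  have t01 : dd G0 G1 = 0 := by
    simp only [dd, a0, a1, a2, a3, a4, c2]
    ring
  have t21 : dd G2 G1 = 0 := by
    simp only [val, Matrix.cons_val, c2] at pL
    simp only [dd, b0, b1, b2, b3, b4, c2]
    linear_combination (- (G2 5) ^ 2) * pL
  have t02 : dd G0 G2 ≠ 0 := by
    have : dd G0 G2 = - (G2 5 * G0 5 ^ 2) := by
      simp only [dd, a0, a1, a2, a3, a4, b2]
      ring
    rw [this]
    exact neg_ne_zero.2 (mul_ne_zero b5 (pow_ne_zero 2 a5))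
  have t20 : dd G2 G0 ≠ 0 := by
    have : dd G2 G0 = - (G2 5 ^ 2 * G0 5) := by
      simp only [dd, a0, a1, a2, a3, a4, b0, b1, b2, b3, b4]
      ring
    rw [this]
    exact neg_ne_zero.2 (mul_ne_zero (pow_ne_zero 2 b5) a5)
  obtain ⟨e1, e2, e3⟩ := kindB_exp (dd G1 G0) (dd G0 G2) (disc G1) (tri G0 G1 G2) (dd G1 G2) (dd G2 G0) t02 t20 α M
    hα hM (by
      intro T
      have e := hdG T
      have e' := disc_lin G0 G1 G2 1 (T ^ α) (T ^ M)
      simp only [one_mul] at e'
      rw [e', t0, t2, t01, t21] at e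
      rw [← e]
      ring)
  rcases kindB_coord G0 G1 G2 x y z w hx0 hy0 hz1 hw1 a0 a1 a2 a3 a4 a5 b0 b1 b2 b3 b4 b5 c2 c0 c1 p4 p5 pL p0 p1
    e1 e2 e3 with ⟨u1, u2, u3⟩ | u
  · -- a conic through the six points
    obtain ⟨Q, hQ⟩ : ∃ Q : Fin 6 → E, Q = fun m => prd (crs J N) (crs I J) m + prd (crs N I) (crs I J) m -
      x * prd (crs I J) (crs I J) m - 2 * prd (crs J N) (crs N I) m := ⟨_, rfl⟩
    have vQ : ∀ u : Fin 3 → E, val Q u = det3 u J N * det3 I J u + det3 I u N * det3 I J u - x * det3 I J u ^ 2 -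
        2 * (det3 u J N * det3 I u N) := by
      intro u
      rw [hQ]
      simp only [val, prd, crs, det3, Matrix.cons_val]
      ring
    have vQ' : ∀ (a b c : E) (u : Fin 3 → E) (k : E), k ≠ 0 → (∀ m, k * u m = a * I m + b * J m + c * N m) →
        a * c + b * c - x * c ^ 2 - 2 * (a * b) = 0 → val Q u = 0 := by
      intro a b c u k hk hu hz
      have d1 : k * det3 u J N = a * det3 I J N := by
        have : k * det3 u J N = det3 (fun m => k * u m) J N := by
          simp only [det3]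
          ring
        rw [this]
        simp only [hu, det3]
        ring
      have d2 : k * det3 I u N = b * det3 I J N := by
        have : k * det3 I u N = det3 I (fun m => k * u m) N := by
          simp only [det3]
          ring
        rw [this]
        simp only [hu, det3]
        ring
      have d3 : k * det3 I J u = c * det3 I J N := by
        have : k * det3 I J u = det3 I J (fun m => k * u m) := by
          simp only [det3]
          ring
        rw [this]
        simp only [hu, det3]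
        ring
      have d4 : k ^ 2 * val Q u = 0 := by
        have : k ^ 2 * val Q u = (k * det3 u J N) * (k * det3 I J u) + (k * det3 I u N) * (k * det3 I J u) -
            x * (k * det3 I J u) ^ 2 - 2 * ((k * det3 u J N) * (k * det3 I u N)) := by
          rw [vQ]
          ring
        rw [this, d1, d2, d3]
        linear_combination (det3 I J N) ^ 2 * hz
      exact (mul_eq_zero.1 d4).resolve_left (pow_ne_zero 2 hk)
    have hQ0 : Q = 0 := by
      apply hnc Q
      intro m
      fin_cases m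
      · exact vQ' z 1 1 (v 0) _ (mul_ne_zero hx3 hD0) r0 (by rw [u2]; ring)
      · exact vQ' 1 w 1 (v 1) _ (mul_ne_zero hx4 hD0) r1 (by rw [u3]; ring)
      · exact vQ' 1 0 0 (v 2) _ hi0 (fun m => by rw [I']; ring) (by ring)
      · exact vQ' 0 1 0 (v 3) _ hj0 (fun m => by rw [J']; ring) (by ring)
      · exact vQ' x 0 1 (v 4) _ (mul_ne_zero hy1 hn0) r4 (by ring)
      · exact vQ' 0 y 1 (v 5) _ (mul_ne_zero hy2 hn0) r5 (by rw [u1]; ring)
    have hv0 := vQ (fun m => I m + J m)
    rw [hQ0] at hv0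
    have : val (0 : Fin 6 → E) (fun m => I m + J m) = 0 := by simp [val]
    rw [this] at hv0
    have e5 : det3 (fun m => I m + J m) J N = det3 I J N := by
      simp only [det3]
      ring
    have e6 : det3 I (fun m => I m + J m) N = det3 I J N := by
      simp only [det3]
      ring
    have e7 : det3 I J (fun m => I m + J m) = 0 := by
      simp only [det3]
      ring
    rw [e5, e6, e7] at hv0
    have e8 : 2 * (det3 I J N * det3 I J N) = 0 := by linear_combination hv0
    exact (mul_ne_zero two_ne_zero (mul_ne_zero hdet hdet)) e8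
  · -- three points on a line
    have e5 : (j * ((y2 * n) * (x3 * D))) * det3 (v 3) (v 5) (v 0) = 0 := by
      have : (j * ((y2 * n) * (x3 * D))) * det3 (v 3) (v 5) (v 0) =
          det3 (fun m => j * v 3 m) (fun m => (y2 * n) * v 5 m) (fun m => (x3 * D) * v 0 m) := by
        simp only [det3]
        ring
      rw [this, show (fun m => (y2 * n) * v 5 m) = fun m => 0 * I m + y * J m + 1 * N m from funext r5,
        show (fun m => (x3 * D) * v 0 m) = fun m => z * I m + 1 * J m + 1 * N m from funext r0,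
        show (fun m => j * v 3 m) = J from funext fun m => (J' m).symm, u]
      simp only [det3]
      ring
    exact mul_ne_zero (mul_ne_zero hj0 (mul_ne_zero (mul_ne_zero hy2 hn0) (mul_ne_zero hx3 hD0)))
      (g 3 5 0 (by decide) (by decide) (by decide)) e5

end Pool.Agent.EX
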