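import Pool.Agent.Helper36.EX.Defs

/-!
# Quadratic forms in three variables vanishing on two lines
-/

set_option autoImplicit false

namespace Pool.Agent.EX

section ring

variable {R : Type*} [CommRing R]

theorem cramer (a b c w : Fin 3 → R) (m : Fin 3) :
    det3 a b c * w m = det3 w b c * a m + det3 a w c * b m + det3 a b w * c m := by
  have h0 : det3 a b c * w 0 = det3 w b c * a 0 + det3 a w c * b 0 + det3 a b w * c 0 := by
    simp only [det3]
    ring
  have h1 : det3 a b c * w 1 = det3 w b c * a 1 + det3 a w c * b 1 + det3 a b w * c 1 := by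
    simp only [det3]
    ring
  have h2 : det3 a b c * w 2 = det3 w b c * a 2 + det3 a w c * b 2 + det3 a b w * c 2 := by
    simp only [det3]
    ring
  fin_cases m
  · exact h0
  · exact h1
  · exact h2

theorem det3_crs (a b w : Fin 3 → R) : dot (crs a b) w = det3 a b w := by
  simp only [det3, dot, crs, Matrix.cons_val]
  ring

theorem dot_comm (a b : Fin 3 → R) : dot a b = dot b a := by
  simp only [dot]
  ring

theorem bil_comm (q : Fin 6 → R) (a b : Fin 3 → R) : bil q a b = bil q b a := by
  simp only [bil]
  ring

theorem bil_self (q : Fin 6 → R) (a : Fin 3 → R) : bil q a a = 2 * val q a := by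
  simp only [bil, val]
  ring

theorem val_smul (q : Fin 6 → R) (k : R) (a : Fin 3 → R) : val (fun m => k * q m) a = k * val q a := by
  simp only [val]
  ring

theorem bil_smul (q : Fin 6 → R) (k : R) (a b : Fin 3 → R) : bil (fun m => k * q m) a b = k * bil q a b := by
  simp only [bil]
  ring

theorem val_comb (q : Fin 6 → R) (a b L : Fin 3 → R) (x y : R) (h : ∀ m, L m = x * a m + y * b m) :
    val q L = x ^ 2 * val q a + y ^ 2 * val q b + x * y * bil q a b := by
  simp only [val, bil, h]
  ring

theorem val_comb3 (q : Fin 6 → R) (a b c L : Fin 3 → R) (x y z : R) (h : ∀ m, L m = x * a m + y * b m + z * c m) :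
    val q L = x ^ 2 * val q a + y ^ 2 * val q b + z ^ 2 * val q c + x * y * bil q a b + x * z * bil q a c +
      y * z * bil q b c := by
  simp only [val, bil, h]
  ring

theorem bil_comb (q : Fin 6 → R) (a b L w : Fin 3 → R) (x y : R) (h : ∀ m, L m = x * a m + y * b m) :
    bil q L w = x * bil q a w + y * bil q b w := by
  simp only [bil, h]
  ring

theorem bil_comb3 (q : Fin 6 → R) (a b c L w : Fin 3 → R) (x y z : R) (h : ∀ m, L m = x * a m + y * b m + z * c m) :
    bil q L w = x * bil q a w + y * bil q b w + z * bil q c w := by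
  simp only [bil, h]
  ring

theorem det3_comb (a b L v w : Fin 3 → R) (x y : R) (h : ∀ m, L m = x * a m + y * b m) :
    det3 v w L = x * det3 v w a + y * det3 v w b := by
  simp only [det3, h]
  ring

theorem det3_rot (a b c : Fin 3 → R) : det3 a b c = det3 b c a := by
  simp only [det3]
  ring

theorem det3_swap (a b c : Fin 3 → R) : det3 a b c = - det3 b a c := by
  simp only [det3]
  ring

theorem det3_two (a b c X L : Fin 3 → R) (D e f g s t : R) (h : ∀ m, D * X m = e * a m + f * b m + g * c m)
    (hL : ∀ m, L m = s * a m + t * b m) : D * det3 c X L = (e * t - f * s) * det3 a b c := by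
  have h1 : D * det3 c X L = det3 c (fun m => D * X m) L := by
    simp only [det3]
    ring
  rw [h1]
  simp only [h, hL, det3]
  ring

theorem disc_three (a b c : Fin 3 → R) (x y z : R) :
    disc (fun m => x * prd b c m + y * prd a c m + z * prd a b m) = x * y * z * det3 a b c ^ 2 := by
  simp only [disc, prd, det3, Matrix.cons_val]
  ring

theorem dd_prd (a b : Fin 3 → R) (k : R) (r : Fin 6 → R) :
    dd (fun m => k * prd a b m) r = - (k ^ 2 * val r (crs a b)) := by
  simp only [dd, prd, crs, val, Matrix.cons_val]
  ring

end ring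

section field

variable {E : Type*} [Field E]

theorem ext_val {q r : Fin 6 → E} (h : ∀ w, val q w = val r w) : q = r := by
  have h0 := h ![1, 0, 0]
  have h1 := h ![0, 1, 0]
  have h2 := h ![0, 0, 1]
  have h3 := h ![0, 1, 1]
  have h4 := h ![1, 0, 1]
  have h5 := h ![1, 1, 0]
  simp only [val, Matrix.cons_val] at h0 h1 h2 h3 h4 h5
  have e0 : q 0 = r 0 := by linear_combination h0
  have e1 : q 1 = r 1 := by linear_combination h1
  have e2 : q 2 = r 2 := by linear_combination h2
  have e3 : q 3 = r 3 := by linear_combination h3 - h1 - h2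
  have e4 : q 4 = r 4 := by linear_combination h4 - h0 - h2
  have e5 : q 5 = r 5 := by linear_combination h5 - h0 - h1
  funext m
  fin_cases m
  · exact e0
  · exact e1
  · exact e2
  · exact e3
  · exact e4
  · exact e5

theorem comb {a b c L : Fin 3 → E} (h : det3 a b c ≠ 0) (hL : det3 a b L = 0) :
    ∃ x y : E, ∀ m, L m = x * a m + y * b m := by
  refine ⟨det3 L b c / det3 a b c, det3 a L c / det3 a b c, fun m => ?_⟩
  have := cramer a b c L m
  rw [hL] at this
  field_simp
  linear_combination this

/-- a form which vanishes on the lines `⟨a, b⟩` and `⟨c, d⟩` -/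
theorem lines (q : Fin 6 → E) (a b c d : Fin 3 → E) (habc : det3 a b c ≠ 0) (hbcd : det3 b c d ≠ 0)
    (ha : val q a = 0) (hb : val q b = 0) (hc : val q c = 0) (hab : bil q a b = 0) (hcd : bil q c d = 0) :
    ∃ k : E, q = fun m => k * prd (crs a b) (crs c d) m := by
  have hdbc : det3 d b c ≠ 0 := by rwa [det3_rot]
  have h1 : det3 d b c * bil q a c + det3 a d c * bil q b c = 0 := by
    have h2 : bil q (fun m => det3 a b c * d m) c = 0 := by
      have : bil q (fun m => det3 a b c * d m) c = det3 a b c * bil q c d := by
        simp only [bil]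
        ring
      rw [this, hcd, mul_zero]
    rw [bil_comb3 q a b c _ c _ _ _ (fun m => cramer a b c d m), bil_self, hc] at h2
    linear_combination h2
  refine ⟨bil q b c / (det3 d b c * det3 a b c), ext_val fun w => ?_⟩
  have h3 : det3 a b c ^ 2 * val q w = det3 a b w * (det3 w b c * bil q a c + det3 a w c * bil q b c) := by
    have h4 : val q (fun m => det3 a b c * w m) = det3 a b c ^ 2 * val q w := by
      simp only [val]
      ring
    rw [← h4, val_comb3 q a b c _ _ _ _ (fun m => cramer a b c w m), ha, hb, hc, hab]
    ring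
  have h5 : det3 d b c * det3 a w c - det3 w b c * det3 a d c = det3 a b c * det3 c d w := by
    simp only [det3]
    ring
  have h6 : val (fun m => bil q b c / (det3 d b c * det3 a b c) * prd (crs a b) (crs c d) m) w =
      bil q b c / (det3 d b c * det3 a b c) * (det3 a b w * det3 c d w) := by
    rw [val_smul, val_prd, dot_comm w, dot_comm w, det3_crs, det3_crs]
  rw [h6]
  have h7 : det3 a b c * det3 a b c * det3 d b c ≠ 0 := mul_ne_zero (mul_ne_zero habc habc) hdbc
  apply mul_left_cancel₀ h7
  have h8 : det3 a b c * det3 a b c * det3 d b c * (bil q b c / (det3 d b c * det3 a b c) * (det3 a b w * det3 c d w)) =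
      det3 a b w * bil q b c * (det3 a b c * det3 c d w) := by
    field_simp
  rw [h8, ← h5]
  linear_combination det3 d b c * h3 + det3 a b w * det3 w b c * h1

theorem disc_line (q : Fin 6 → E) (a b c : Fin 3 → E) (h : det3 a b c ≠ 0) (ha : val q a = 0) (hb : val q b = 0)
    (hab : bil q a b = 0) : disc q = 0 := by
  have h1 : disc (pull q a b c) = 0 := by
    simp only [disc, pull, Matrix.cons_val, ha, hb, hab]
    ring
  rw [disc_pull] at h1
  exact (mul_eq_zero.1 h1).resolve_right (pow_ne_zero 2 h)

theorem dd_line (q r : Fin 6 → E) (a b c : Fin 3 → E) (h : det3 a b c ≠ 0) (ha : val q a = 0) (hb : val q b = 0)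
    (hab : bil q a b = 0) (hra : val r a = 0) (hrb : val r b = 0) (hrab : bil r a b = 0) : dd q r = 0 := by
  have h1 : dd (pull q a b c) (pull r a b c) = 0 := by
    simp only [dd, pull, Matrix.cons_val, ha, hb, hab, hra, hrb, hrab]
    ring
  rw [dd_pull] at h1
  exact (mul_eq_zero.1 h1).resolve_right (pow_ne_zero 2 h)

theorem low [CharZero E] (A : E) (f : Polynomial E) (h : ∀ T : E, T ≠ 0 → A + T * f.eval T = 0) : A = 0 := by
  have h1 : Polynomial.X * (Polynomial.C A + Polynomial.X * f) = 0 := by
    apply Polynomial.funext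
    intro T
    simp only [Polynomial.eval_mul, Polynomial.eval_X, Polynomial.eval_add, Polynomial.eval_C, Polynomial.eval_zero]
    rcases eq_or_ne T 0 with hT | hT
    · rw [hT, zero_mul]
    · rw [h T hT, mul_zero]
  have h2 := (mul_eq_zero.1 h1).resolve_left Polynomial.X_ne_zero
  have h3 := congrArg (Polynomial.eval 0) h2
  simpa using h3

end field

end Pool.Agent.EX
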